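import Pool.Agent.U866.OM.Stm

set_option autoImplicit false

namespace Pool.Agent.U866.OM

open Pool.Agent.H498R3.GB
open scoped BigOperators ContDiff Topology Matrix
open MeasureTheory Filter Metric

lemma sc_contr {m : ℕ} (q : Fin m → ℝ) (W : ℝ) (F : Fin m → Fin m → ℝ) :
    ∑ i, ∑ k, ((1 : Matrix (Fin m) (Fin m) ℝ) i k - q i * q k / W) * F i k
      = (∑ i, F i i) - (∑ i, ∑ k, q i * q k * F i k) / W := by
  have h1 : ∀ i, ∑ k, ((1 : Matrix (Fin m) (Fin m) ℝ) i k - q i * q k / W) * F i k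
      = F i i - (∑ k, q i * q k * F i k) / W := by
    intro i
    simp only [sub_mul]
    rw [Finset.sum_sub_distrib, Finset.sum_div]
    congr 1
    · simp [Matrix.one_apply]
    · exact Finset.sum_congr rfl fun k _ => by ring
  rw [Finset.sum_congr rfl fun i _ => h1 i, Finset.sum_sub_distrib, ← Finset.sum_div]

lemma sc_alg {m : ℕ} (q : Fin m → ℝ) (B : Fin m → Fin m → ℝ) (hB : ∀ i j, B i j = B j i) (W : ℝ)
    (hW : W ≠ 0) :
    ∑ j, ∑ l, ((1 : Matrix (Fin m) (Fin m) ℝ) j l - q j * q l / W) *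
      (∑ i, ∑ k, ((1 : Matrix (Fin m) (Fin m) ℝ) i k - q i * q k / W) *
        ((B i k * B j l - B i l * B j k) / W))
      = (((∑ i, B i i) ^ 2 - ∑ i, ∑ j, B i j ^ 2)
        - 2 * ((∑ i, B i i) * (∑ i, ∑ j, B i j * q i * q j) - ∑ i, (∑ j, B i j * q j) ^ 2) / W) / W := by
  set t : ℝ := ∑ i, B i i with ht
  set a : ℝ := ∑ i, ∑ j, B i j * q i * q j with ha
  set v : Fin m → ℝ := fun l => ∑ j, B l j * q j with hv
  have hav : ∑ j, q j * v j = a := by
    rw [ha]
    refine Finset.sum_congr rfl fun i _ => ?_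
    rw [hv]
    simp only
    rw [Finset.mul_sum]
    exact Finset.sum_congr rfl fun k _ => by ring
  have hv' : ∀ l, ∑ i, q i * B i l = v l := by
    intro l
    rw [hv]
    exact Finset.sum_congr rfl fun i _ => by rw [hB i l]; ring
  have h1 : ∀ j l, ∑ i, (B i i * B j l - B i l * B j i) / W = (t * B j l - ∑ i, B i l * B j i) / W := by
    intro j l
    rw [← Finset.sum_div, Finset.sum_sub_distrib, ← Finset.sum_mul]
  have h2 : ∀ j l, ∑ i, ∑ k, q i * q k * ((B i k * B j l - B i l * B j k) / W)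
      = (a * B j l - v l * v j) / W := by
    intro j l
    have e1 : ∑ i, ∑ k, q i * q k * ((B i k * B j l - B i l * B j k) / W)
        = (∑ i, ∑ k, (B i k * q i * q k * B j l - (q i * B i l) * (B j k * q k))) / W := by
      rw [Finset.sum_div]
      refine Finset.sum_congr rfl fun i _ => ?_
      rw [Finset.sum_div]
      exact Finset.sum_congr rfl fun k _ => by ring
    rw [e1]
    congr 1
    have e2 : ∀ i, ∑ k, (B i k * q i * q k * B j l - (q i * B i l) * (B j k * q k))
        = (∑ k, B i k * q i * q k) * B j l - (q i * B i l) * v j := by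
      intro i
      rw [Finset.sum_sub_distrib, ← Finset.sum_mul, ← Finset.mul_sum]
    rw [Finset.sum_congr rfl fun i _ => e2 i, Finset.sum_sub_distrib, ← Finset.sum_mul,
      ← Finset.sum_mul, hv' l]
  have hR : ∀ j l, ∑ i, ∑ k, ((1 : Matrix (Fin m) (Fin m) ℝ) i k - q i * q k / W) *
        ((B i k * B j l - B i l * B j k) / W)
      = (t * B j l - ∑ i, B i l * B j i) / W - (a * B j l - v l * v j) / W / W := by
    intro j l
    rw [sc_contr q W (fun i k => (B i k * B j l - B i l * B j k) / W), h2]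
    rw [h1]
  simp only [hR]
  rw [sc_contr q W (fun j l => (t * B j l - ∑ i, B i l * B j i) / W - (a * B j l - v l * v j) / W / W)]
  have f1 : ∑ i, ∑ j, B j i * B i j = ∑ i, ∑ j, B i j ^ 2 :=
    Finset.sum_congr rfl fun i _ => Finset.sum_congr rfl fun j _ => by rw [hB j i]; ring
  have f2 : ∑ i, v i * v i = ∑ i, v i ^ 2 := Finset.sum_congr rfl fun i _ => by ring
  have s1 : ∑ i, ((t * B i i - ∑ i_1, B i_1 i * B i i_1) / W - (a * B i i - v i * v i) / W / W)
      = (t * t - ∑ i, ∑ j, B i j ^ 2) / W - (a * t - ∑ i, v i ^ 2) / W / W := by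
    rw [Finset.sum_sub_distrib, ← Finset.sum_div, ← Finset.sum_div, ← Finset.sum_div,
      Finset.sum_sub_distrib, Finset.sum_sub_distrib, ← Finset.mul_sum, ← Finset.mul_sum, ← ht, f1, f2]
  have s2 : ∑ i, ∑ k, q i * q k * ((t * B i k - ∑ i_1, B i_1 k * B i i_1) / W
      - (a * B i k - v k * v i) / W / W)
      = (t * a - ∑ i, v i ^ 2) / W := by
    have e1 : ∑ i, ∑ k, q i * q k * ((t * B i k - ∑ i_1, B i_1 k * B i i_1) / W
        - (a * B i k - v k * v i) / W / W)
        = (t * (∑ i, ∑ k, B i k * q i * q k) - ∑ i, ∑ k, q i * q k * ∑ l, B l k * B i l) / W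
          - (a * (∑ i, ∑ k, B i k * q i * q k) - ∑ i, ∑ k, (q i * v i) * (q k * v k)) / W / W := by
      rw [Finset.mul_sum, Finset.mul_sum, ← Finset.sum_sub_distrib, ← Finset.sum_sub_distrib,
        Finset.sum_div, Finset.sum_div, Finset.sum_div, ← Finset.sum_sub_distrib]
      refine Finset.sum_congr rfl fun i _ => ?_
      rw [Finset.mul_sum, Finset.mul_sum, ← Finset.sum_sub_distrib, ← Finset.sum_sub_distrib,
        Finset.sum_div, Finset.sum_div, Finset.sum_div, ← Finset.sum_sub_distrib]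
      exact Finset.sum_congr rfl fun k _ => by ring
    have e2 : ∑ i, ∑ k, (q i * v i) * (q k * v k) = a * a := by
      rw [← Finset.sum_mul_sum, hav]
    have e3 : ∑ i, ∑ k, q i * q k * ∑ l, B l k * B i l = ∑ l, v l ^ 2 := by
      have e4 : ∀ l, v l ^ 2 = ∑ i, ∑ k, (q i * B i l) * (B l k * q k) := by
        intro l
        rw [← Finset.sum_mul_sum, hv' l, sq]
      rw [Finset.sum_congr rfl fun l _ => e4 l]
      symm
      rw [Finset.sum_comm]
      refine Finset.sum_congr rfl fun i _ => ?_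
      rw [Finset.sum_comm]
      refine Finset.sum_congr rfl fun k _ => ?_
      rw [Finset.mul_sum]
      exact Finset.sum_congr rfl fun l _ => by ring
    rw [e1, e2, e3, ← ha]
    ring
  rw [s1, s2]
  field_simp
  ring

lemma sc_symm {m : ℕ} {v : E m → ℝ} (hv : ContDiff ℝ ∞ v) (x : E m) (i j : Fin m) :
    A v x i j = A v x j i := by
  have hd : DifferentiableAt ℝ (fderiv ℝ v) x :=
    ((hv.fderiv_right (m := ∞) (by simp)).differentiable (by simp)) x
  have hs : IsSymmSndFDerivAt ℝ v x :=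
    (hv.contDiffAt).isSymmSndFDerivAt (by
      rw [minSmoothness_of_isRCLikeNormedField]
      exact WithTop.coe_le_coe.2 (le_top : (2 : ℕ∞) ≤ ⊤))
  have e : ∀ a b : Fin m, pd a (pd b v) x =
      fderiv ℝ (fderiv ℝ v) x (EuclideanSpace.single a 1) (EuclideanSpace.single b 1) := by
    intro a b
    unfold pd
    rw [fderiv_clm_apply hd (differentiableAt_const _)]
    simp
  unfold A
  rw [e, e]
  exact hs _ _

theorem t_SC : S_RM → S_INV → S_SC := by
  intro hRM hINV m v hv x
  have hW : 0 < W2 v x := by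
    unfold W2
    have : 0 ≤ ∑ i, p v x i ^ 2 := Finset.sum_nonneg fun i _ => sq_nonneg _
    linarith
  have hS : Scal (euc v) x = (S2 v x - 2 * Q v x / W2 v x) / W2 v x := by
    unfold Scal Ric
    have h := sc_alg (p v x) (A v x) (sc_symm hv x) (W2 v x) hW.ne'
    unfold S2 Q
    rw [← h]
    refine Finset.sum_congr rfl fun j _ => Finset.sum_congr rfl fun l _ => ?_
    rw [(hINV m v x).1]
    congr 1
    refine Finset.sum_congr rfl fun i _ => Finset.sum_congr rfl fun k _ => ?_
    rw [(hINV m v x).1, hRM m v hv x]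
  rw [hS]
  unfold volDensity
  rw [(hINV m v x).2]
  have hs : √(W2 v x) * √(W2 v x) = W2 v x := Real.mul_self_sqrt hW.le
  have hs0 : √(W2 v x) ≠ 0 := (Real.sqrt_pos.mpr hW).ne'
  have h1 : √(W2 v x) / W2 v x = 1 / √(W2 v x) := by
    rw [div_eq_div_iff hW.ne' hs0, hs, one_mul]
  calc (S2 v x - 2 * Q v x / W2 v x) / W2 v x * √(W2 v x)
      = (S2 v x - 2 * Q v x / W2 v x) * (√(W2 v x) / W2 v x) := by ring
    _ = (S2 v x - 2 * Q v x / W2 v x) * (1 / √(W2 v x)) := by rw [h1]
    _ = S2 v x / √(W2 v x) - 2 * Q v x / (W2 v x * √(W2 v x)) := by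
        field_simp

end Pool.Agent.U866.OM
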